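import Pool.Agent.PFC.StmtsB4a

/-!
# Squad PFC, row PSD: the dual of a permutation summand (helper80)
-/

set_option autoImplicit false

namespace Pool.Agent.PFC.H80

open Pool.Agent.PFC

theorem cancel1 {F H M : Type} [Field F] [Group H] [AddCommGroup M] [Module F M]
    (ρ : H →* (M →ₗ[F] M)) (h : H) (m : M) : ρ h (ρ h⁻¹ m) = m := by
  have h1 : ρ h * ρ h⁻¹ = 1 := by rw [← map_mul, mul_inv_cancel, map_one]
  exact DFunLike.congr_fun h1 m

theorem cancel2 {F H M : Type} [Field F] [Group H] [AddCommGroup M] [Module F M]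
    (ρ : H →* (M →ₗ[F] M)) (h : H) (m : M) : ρ h⁻¹ (ρ h m) = m := by
  have h1 : ρ h⁻¹ * ρ h = 1 := by rw [← map_mul, inv_mul_cancel, map_one]
  exact DFunLike.congr_fun h1 m

/-- PSD -/
theorem psd : PsdStmt := by
  intro F H M _ _ _ _ ρ X hX
  obtain ⟨Ω, hΩ, hA, b, c, ⟨h1, h2, h3⟩, h4⟩ := hX
  refine ⟨Ω, hΩ, hA, c, fun ω =>
    { toFun := fun f => f (b ω)
      map_add' := fun f g => rfl
      map_smul' := fun r f => rfl }, ⟨?_, ?_, ?_⟩, h4⟩
  · intro h ω
    ext m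
    change c (h • ω) m = c ω (ρ h⁻¹ m)
    have h5 := h2 h ω (ρ h⁻¹ m)
    rw [cancel1] at h5
    exact h5
  · intro h ω f
    change f (ρ h⁻¹ (b (h • ω))) = f (b ω)
    rw [h1, cancel2]
  · intro f
    ext m
    rw [LinearMap.sum_apply]
    change ∑ ω, f (b ω) * c ω m = f m
    conv_rhs => rw [← h3 m, map_sum]
    refine Finset.sum_congr rfl fun ω _ => ?_
    rw [map_smul, smul_eq_mul, mul_comm]

end Pool.Agent.PFC.H80
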